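import Mathlib
import Pool.Agent.H.MP_62fa17_nt.A

set_option autoImplicit false

namespace Pool.Agent.Results.MP_62fa17_nt.Sums

open Finset

def Λ (n : ℕ) : Finset (Fin n → ℕ) :=
  (Fintype.piFinset fun _ => range (n + 1)).filter fun l => Antitone l ∧ ∑ i, l i = n

def ext {n : ℕ} (l : Fin n → ℕ) (i : ℕ) : ℕ := if h : i < n then l ⟨i, h⟩ else 0

def C {n : ℕ} (l : Fin n → ℕ) : ℕ := ∏ i : Fin n, (l i).choose (ext l (i + 1))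

def u {n : ℕ} (l : Fin n → ℕ) : ℚ :=
  ∏ i : Fin n, ((if i.val + 1 = 1 then 1 else 2 * (i.val + 1 : ℚ) - 3) / (i.val + 1)) ^ l i

def v {n : ℕ} (l : Fin n → ℕ) : ℚ :=
  ∏ i : Fin n, ((2 * (i.val + 1 : ℚ) - 1) / (i.val + 1)) ^ l i

theorem result (n : ℕ) (hn : 1 < n) :
    ∑ l ∈ Λ n, (1 + ext l 0 : ℚ) * C l * u l = 2 ^ n ∧
    ∑ l ∈ Λ n, (-1) ^ (1 + ext l 0) * (1 + ext l 0 : ℚ) * C l * v l = 0 := by
  obtain ⟨m, rfl⟩ : ∃ m, n = m + 1 := ⟨n - 1, by omega⟩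
  exact ⟨(Pool.Agent.H.MP_62fa17_nt.gf m Pool.Agent.H.MP_62fa17_nt.tu fun a => 1 + a).trans
      (Pool.Agent.H.MP_62fa17_nt.sumU m),
    (Pool.Agent.H.MP_62fa17_nt.gf m Pool.Agent.H.MP_62fa17_nt.tv
      fun a => (-1) ^ (1 + a) * (1 + a)).trans (Pool.Agent.H.MP_62fa17_nt.sumV m (by omega))⟩

end Pool.Agent.Results.MP_62fa17_nt.Sums
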